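import Mathlib

/-!
# H68E: families of finite sets, the quality of a family, insertion of a set by uncrossing
-/

set_option autoImplicit false

open Finset

namespace Pool.Agent.Lib.H68E

variable {α : Type*} [DecidableEq α]

/-- The closed in-neighbourhood of a set (`N v` is the set of in-neighbours of `v`). -/
def cl (N : α → Finset α) (X : Finset α) : Finset α := X ∪ X.biUnion N

/-- `q X = 2|X| - |X ∪ N(X)|`. -/
def q (N : α → Finset α) (X : Finset α) : ℤ := 2 * (X.card : ℤ) - ((cl N X).card : ℤ)

/-- `1` if the sets intersect, `0` otherwise. -/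
def dl (X Y : Finset α) : ℤ := if Disjoint X Y then 0 else 1

/-- The number of members of the family which meet `V`. -/
def D (V : Finset α) (F : Multiset (Finset α)) : ℤ := (F.map (dl V)).sum

/-- The number of intersecting pairs `(X, Y)`, `X ∈ F`, `Y ∈ G`. -/
def J (F G : Multiset (Finset α)) : ℤ := (F.map (fun X => D X G)).sum

/-- The sum of `q` over the family. -/
def Sq (N : α → Finset α) (F : Multiset (Finset α)) : ℤ := (F.map (q N)).sum

/-- Twice the quality: `2 ∑ q + 2 #(unordered intersecting pairs)` (for families of nonempty sets). -/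
def Psi (N : α → Finset α) (F : Multiset (Finset α)) : ℤ := 2 * Sq N F + J F F - (F.card : ℤ)

/-- Laminar families. -/
def Lam (F : Multiset (Finset α)) : Prop := ∀ X ∈ F, ∀ Y ∈ F, X ⊆ Y ∨ Y ⊆ X ∨ Disjoint X Y

/-- Families of nonempty sets. -/
def Nes (F : Multiset (Finset α)) : Prop := ∀ X ∈ F, X.Nonempty

/-- The number of members of the family which contain `v`. -/
def cnt (F : Multiset (Finset α)) (v : α) : ℕ := F.countP (fun X => v ∈ X)

theorem cl_union (N : α → Finset α) (X Y : Finset α) : cl N (X ∪ Y) = cl N X ∪ cl N Y := by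
  unfold cl
  rw [union_biUnion]
  ext v
  simp only [mem_union]
  tauto

theorem cl_mono (N : α → Finset α) {X Y : Finset α} (h : X ⊆ Y) : cl N X ⊆ cl N Y := by
  unfold cl
  exact union_subset_union h (biUnion_subset_biUnion_of_subset_left _ h)

theorem subset_cl (N : α → Finset α) (X : Finset α) : X ⊆ cl N X := subset_union_left

theorem q_super (N : α → Finset α) (X Y : Finset α) : q N X + q N Y ≤ q N (X ∪ Y) + q N (X ∩ Y) := by
  unfold q
  have h1 := card_union_add_card_inter X Y
  have h2 := card_union_add_card_inter (cl N X) (cl N Y)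
  have h3 : (cl N (X ∩ Y)).card ≤ (cl N X ∩ cl N Y).card :=
    card_le_card (subset_inter (cl_mono N inter_subset_left) (cl_mono N inter_subset_right))
  rw [← cl_union] at h2
  zify at h1 h2 h3
  linarith

theorem q_union_disj (N : α → Finset α) {X Y : Finset α} (h : Disjoint X Y) :
    q N (X ∪ Y) = q N X + q N Y + ((cl N X ∩ cl N Y).card : ℤ) := by
  unfold q
  have h1 := card_union_of_disjoint h
  have h2 := card_union_add_card_inter (cl N X) (cl N Y)
  rw [← cl_union] at h2
  zify at h1 h2
  linarith

theorem dl_comm (X Y : Finset α) : dl X Y = dl Y X := by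
  unfold dl
  by_cases h : Disjoint X Y
  · rw [if_pos h, if_pos h.symm]
  · rw [if_neg h, if_neg (fun h' => h h'.symm)]

theorem dl_self {X : Finset α} (h : X.Nonempty) : dl X X = 1 := by
  unfold dl
  rw [if_neg]
  intro h'
  rw [disjoint_self] at h'
  exact h.ne_empty h'

theorem dl_nonneg (X Y : Finset α) : 0 ≤ dl X Y := by
  unfold dl
  split <;> norm_num

theorem dl_le_one (X Y : Finset α) : dl X Y ≤ 1 := by
  unfold dl
  split <;> norm_num

theorem dl_eq_one {X Y : Finset α} (h : ¬ Disjoint X Y) : dl X Y = 1 := by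
  unfold dl
  rw [if_neg h]

theorem dl_eq_zero {X Y : Finset α} (h : Disjoint X Y) : dl X Y = 0 := by
  unfold dl
  rw [if_pos h]

theorem dl_mono_left {X X' : Finset α} (h : X ⊆ X') (Y : Finset α) : dl X Y ≤ dl X' Y := by
  by_cases h1 : Disjoint X Y
  · rw [dl_eq_zero h1]
    exact dl_nonneg _ _
  · rw [dl_eq_one h1, dl_eq_one]
    intro h2
    exact h1 (disjoint_of_subset_left h h2)

theorem dl_subset {X Y : Finset α} (hX : X.Nonempty) (h : X ⊆ Y) : dl X Y = 1 := by
  apply dl_eq_one
  intro h2
  have := disjoint_of_subset_right h h2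
  rw [disjoint_self] at this
  exact hX.ne_empty this

theorem D_zero (V : Finset α) : D V 0 = 0 := by simp [D]

theorem D_cons (V X : Finset α) (F : Multiset (Finset α)) : D V (X ::ₘ F) = dl V X + D V F := by
  simp [D]

theorem D_add (V : Finset α) (F G : Multiset (Finset α)) : D V (F + G) = D V F + D V G := by
  simp [D]

theorem D_nonneg (V : Finset α) (F : Multiset (Finset α)) : 0 ≤ D V F := by
  unfold D
  apply Multiset.sum_nonneg
  intro x hx
  obtain ⟨X, _, rfl⟩ := Multiset.mem_map.1 hx
  exact dl_nonneg _ _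

theorem D_mono {V V' : Finset α} (h : V ⊆ V') (F : Multiset (Finset α)) : D V F ≤ D V' F := by
  unfold D
  exact Multiset.sum_map_le_sum_map _ _ (fun X _ => dl_mono_left h X)

theorem D_congr {V V' : Finset α} {F : Multiset (Finset α)} (h : ∀ X ∈ F, (Disjoint V X ↔ Disjoint V' X)) :
    D V F = D V' F := by
  unfold D
  congr 1
  apply Multiset.map_congr rfl
  intro X hX
  unfold dl
  simp only [h X hX]

theorem D_eq_zero {V : Finset α} {F : Multiset (Finset α)} (h : ∀ X ∈ F, Disjoint V X) : D V F = 0 := by
  unfold D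
  apply Multiset.sum_eq_zero
  intro x hx
  obtain ⟨X, hX, rfl⟩ := Multiset.mem_map.1 hx
  exact dl_eq_zero (h X hX)

theorem D_eq_card {V : Finset α} {F : Multiset (Finset α)} (h : ∀ X ∈ F, ¬ Disjoint V X) :
    D V F = (F.card : ℤ) := by
  unfold D
  have : F.map (dl V) = F.map (fun _ => (1 : ℤ)) := by
    apply Multiset.map_congr rfl
    intro X hX
    exact dl_eq_one (h X hX)
  rw [this]
  simp

theorem J_zero_left (G : Multiset (Finset α)) : J 0 G = 0 := by simp [J]

theorem J_cons_left (X : Finset α) (F G : Multiset (Finset α)) : J (X ::ₘ F) G = D X G + J F G := by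
  simp [J]

theorem J_add_left (F F' G : Multiset (Finset α)) : J (F + F') G = J F G + J F' G := by
  simp [J]

theorem J_comm (F G : Multiset (Finset α)) : J F G = J G F := by
  unfold J D
  rw [Multiset.sum_map_sum_map]
  congr 1
  apply Multiset.map_congr rfl
  intro X _
  congr 1
  apply Multiset.map_congr rfl
  intro Y _
  exact dl_comm _ _

theorem J_add_right (F G G' : Multiset (Finset α)) : J F (G + G') = J F G + J F G' := by
  rw [J_comm, J_add_left, J_comm G, J_comm G']

theorem J_cons_right (X : Finset α) (F G : Multiset (Finset α)) : J F (X ::ₘ G) = D X F + J F G := by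
  rw [J_comm, J_cons_left, J_comm]

theorem J_eq_zero {F G : Multiset (Finset α)} (h : ∀ X ∈ F, ∀ Y ∈ G, Disjoint X Y) : J F G = 0 := by
  unfold J
  apply Multiset.sum_eq_zero
  intro x hx
  obtain ⟨X, hX, rfl⟩ := Multiset.mem_map.1 hx
  exact D_eq_zero (h X hX)

theorem J_eq_card {F G : Multiset (Finset α)} (h : ∀ X ∈ F, ∀ Y ∈ G, ¬ Disjoint X Y) :
    J F G = (F.card : ℤ) * G.card := by
  unfold J
  have : F.map (fun X => D X G) = F.map (fun _ => (G.card : ℤ)) := by
    apply Multiset.map_congr rfl
    intro X hX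
    exact D_eq_card (h X hX)
  rw [this]
  simp

theorem Sq_cons (N : α → Finset α) (X : Finset α) (F : Multiset (Finset α)) :
    Sq N (X ::ₘ F) = q N X + Sq N F := by simp [Sq]

theorem Sq_add (N : α → Finset α) (F G : Multiset (Finset α)) : Sq N (F + G) = Sq N F + Sq N G := by
  simp [Sq]

theorem Psi_add (N : α → Finset α) (F G : Multiset (Finset α)) :
    Psi N (F + G) = Psi N F + Psi N G + 2 * J F G := by
  unfold Psi
  rw [Sq_add, J_add_left, J_add_right, J_add_right, Multiset.card_add, J_comm G F]
  push_cast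
  ring

theorem Psi_cons (N : α → Finset α) {X : Finset α} (hX : X.Nonempty) (F : Multiset (Finset α)) :
    Psi N (X ::ₘ F) = Psi N F + 2 * q N X + 2 * D X F := by
  unfold Psi
  rw [Sq_cons, J_cons_left, J_cons_right, D_cons, dl_self hX, Multiset.card_cons]
  push_cast
  ring

theorem Psi_zero (N : α → Finset α) : Psi N (0 : Multiset (Finset α)) = 0 := by
  simp [Psi, Sq, J]

theorem cnt_zero (v : α) : cnt (0 : Multiset (Finset α)) v = 0 := by simp [cnt]

theorem cnt_cons (X : Finset α) (F : Multiset (Finset α)) (v : α) :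
    cnt (X ::ₘ F) v = cnt F v + if v ∈ X then 1 else 0 := by
  unfold cnt
  rw [Multiset.countP_cons]

theorem cnt_add (F G : Multiset (Finset α)) (v : α) : cnt (F + G) v = cnt F v + cnt G v := by
  unfold cnt
  rw [Multiset.countP_add]

theorem cnt_pos {F : Multiset (Finset α)} {X : Finset α} (hX : X ∈ F) {v : α} (hv : v ∈ X) : 0 < cnt F v := by
  unfold cnt
  rw [Multiset.countP_pos]
  exact ⟨X, hX, hv⟩

theorem cnt_eq_zero {F : Multiset (Finset α)} {v : α} (h : ∀ X ∈ F, v ∉ X) : cnt F v = 0 := by
  unfold cnt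
  rw [Multiset.countP_eq_zero]
  exact h

theorem Lam_mono {F G : Multiset (Finset α)} (h : F ≤ G) (hG : Lam G) : Lam F :=
  fun X hX Y hY => hG X (Multiset.mem_of_le h hX) Y (Multiset.mem_of_le h hY)

/-- **Insertion of a set into a laminar family by uncrossing.** -/
theorem insertion (N : α → Finset α) : ∀ (n : ℕ) (F : Multiset (Finset α)), F.card = n → Lam F → Nes F →
    ∀ V : Finset α, V.Nonempty → ∃ F' : Multiset (Finset α), Lam F' ∧ Nes F' ∧
      (∀ v, cnt F' v = cnt F v + if v ∈ V then 1 else 0) ∧ F'.card = F.card + 1 ∧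
      (∃ U ∈ F', V ⊆ U) ∧ Psi N F + 2 * q N V + 2 * D V F ≤ Psi N F' := by
  intro n
  induction n using Nat.strong_induction_on with
  | _ n ih =>
  intro F hn hL hne V hV
  by_cases hmeet : ∃ M ∈ F, ¬ Disjoint V M
  swap
  · push_neg at hmeet
    refine ⟨V ::ₘ F, ?_, ?_, ?_, ?_, ⟨V, Multiset.mem_cons_self _ _, Subset.refl _⟩, ?_⟩
    · intro X hX Y hY
      rw [Multiset.mem_cons] at hX hY
      rcases hX with rfl | hX <;> rcases hY with rfl | hY
      · exact Or.inl (Subset.refl _)
      · exact Or.inr (Or.inr (hmeet Y hY))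
      · exact Or.inr (Or.inr (hmeet X hX).symm)
      · exact hL X hX Y hY
    · intro X hX
      rw [Multiset.mem_cons] at hX
      rcases hX with rfl | hX
      · exact hV
      · exact hne X hX
    · intro v
      rw [cnt_cons]
    · rw [Multiset.card_cons]
    · rw [Psi_cons N hV, D_eq_zero hmeet]
  · -- choose `M` of maximal size
    obtain ⟨M, hM, hMmax⟩ : ∃ M ∈ F, ¬ Disjoint V M ∧ ∀ X ∈ F, ¬ Disjoint V X → X.card ≤ M.card := by
      classical
      obtain ⟨M0, hM0, hd0⟩ := hmeet
      have hfin : ((F.filter (fun X => ¬ Disjoint V X)).toFinset).Nonempty :=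
        ⟨M0, by simp [hM0, hd0]⟩
      obtain ⟨M, hM, hmax⟩ := exists_max_image _ (fun X : Finset α => X.card) hfin
      simp only [Multiset.mem_toFinset, Multiset.mem_filter] at hM hmax
      exact ⟨M, hM.1, hM.2, fun X hX hd => hmax X ⟨hX, hd⟩⟩
    obtain ⟨hMV, hMmax⟩ := hMmax
    obtain ⟨R, rfl⟩ := Multiset.exists_cons_of_mem hM
    have hMne : M.Nonempty := hne M hM
    have hVM : (M ∩ V).Nonempty := by
      rw [Finset.not_disjoint_iff] at hMV
      obtain ⟨a, h1, h2⟩ := hMV
      exact ⟨a, mem_inter.2 ⟨h2, h1⟩⟩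
    set F1 : Multiset (Finset α) := R.filter (fun X => X ⊆ M) with hF1
    set F2 : Multiset (Finset α) := R.filter (fun X => ¬ X ⊆ M) with hF2
    have hR : F1 + F2 = R := Multiset.filter_add_not _ _
    have hRle : R ≤ M ::ₘ R := Multiset.le_cons_self _ _
    have hF1R : F1 ≤ R := Multiset.filter_le _ _
    have hF2R : F2 ≤ R := Multiset.filter_le _ _
    have hsub1 : ∀ X ∈ F1, X ⊆ M := fun X hX => (Multiset.mem_filter.1 hX).2
    have hdis2 : ∀ Z ∈ F2, Disjoint M Z := by
      intro Z hZ
      obtain ⟨hZR, hZM⟩ := Multiset.mem_filter.1 hZ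
      rcases hL Z (Multiset.mem_cons_of_mem hZR) M hM with h | h | h
      · exact absurd h hZM
      · have hd : ¬ Disjoint V Z := fun h' => hMV (disjoint_of_subset_right h h')
        have hc := hMmax Z (Multiset.mem_cons_of_mem hZR) hd
        have := eq_of_subset_of_card_le h hc
        exact absurd (this ▸ Subset.refl _) hZM
      · exact h.symm
    have hc1 : F1.card < n := by
      have h1 := Multiset.card_le_card hF1R
      rw [Multiset.card_cons] at hn
      omega
    have hc2 : F2.card < n := by
      have h1 := Multiset.card_le_card hF2R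
      rw [Multiset.card_cons] at hn
      omega
    have hL1 : Lam F1 := Lam_mono (hF1R.trans hRle) hL
    have hL2 : Lam F2 := Lam_mono (hF2R.trans hRle) hL
    have hn1 : Nes F1 := fun X hX => hne X (Multiset.mem_of_le (hF1R.trans hRle) hX)
    have hn2 : Nes F2 := fun X hX => hne X (Multiset.mem_of_le (hF2R.trans hRle) hX)
    obtain ⟨G1, gL1, gn1, gc1, gcard1, -, gP1⟩ := ih _ hc1 F1 rfl hL1 hn1 (M ∩ V) hVM
    obtain ⟨G2, gL2, gn2, gc2, gcard2, ⟨U, hU, hUV⟩, gP2⟩ :=
      ih _ hc2 F2 rfl hL2 hn2 (M ∪ V) (hV.mono subset_union_right)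
    have hG1sub : ∀ X ∈ G1, X ⊆ M := by
      intro X hX v hv
      have h1 := cnt_pos hX hv
      rw [gc1 v] at h1
      by_contra hvM
      have h2 : cnt F1 v = 0 := cnt_eq_zero (fun Y hY hvY => hvM (hsub1 Y hY hvY))
      have h3 : v ∉ M ∩ V := fun h => hvM (mem_inter.1 h).1
      rw [h2, if_neg h3] at h1
      exact lt_irrefl _ h1
    obtain ⟨Z, rfl⟩ := Multiset.exists_cons_of_mem hU
    have hMU : M ⊆ U := subset_union_left.trans hUV
    have hVU : V ⊆ U := subset_union_right.trans hUV
    have hZdis : ∀ Y ∈ Z, Disjoint M Y := by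
      intro Y hY
      rw [Finset.disjoint_left]
      intro v hvM hvY
      have h1 := gc2 v
      have h2 : cnt F2 v = 0 := by
        apply cnt_eq_zero
        intro Y' hY' hvY'
        exact Finset.disjoint_left.1 (hdis2 Y' hY') hvM hvY'
      rw [cnt_cons, h2, if_pos (hMU hvM), if_pos (mem_union_left _ hvM)] at h1
      have h3 := cnt_pos hY hvY
      omega
    refine ⟨G1 + (U ::ₘ Z), ?_, ?_, ?_, ?_, ⟨U, Multiset.mem_add.2 (Or.inr (Multiset.mem_cons_self _ _)), hVU⟩, ?_⟩
    · intro X hX Y hY
      rw [Multiset.mem_add] at hX hY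
      rcases hX with hX | hX <;> rcases hY with hY | hY
      · exact gL1 X hX Y hY
      · rw [Multiset.mem_cons] at hY
        rcases hY with rfl | hY
        · exact Or.inl ((hG1sub X hX).trans hMU)
        · exact Or.inr (Or.inr (disjoint_of_subset_left (hG1sub X hX) (hZdis Y hY)))
      · rw [Multiset.mem_cons] at hX
        rcases hX with rfl | hX
        · exact Or.inr (Or.inl ((hG1sub Y hY).trans hMU))
        · exact Or.inr (Or.inr (disjoint_of_subset_left (hG1sub Y hY) (hZdis X hX)).symm)
      · exact gL2 X hX Y hY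
    · intro X hX
      rw [Multiset.mem_add] at hX
      rcases hX with hX | hX
      · exact gn1 X hX
      · exact gn2 X hX
    · intro v
      rw [cnt_add, gc1, gc2, cnt_cons, ← hR, cnt_add]
      by_cases h1 : v ∈ M <;> by_cases h2 : v ∈ V <;> simp [h1, h2] <;> omega
    · rw [Multiset.card_add, gcard1, gcard2, Multiset.card_cons, ← hR, Multiset.card_add]
      omega
    · have e1 : J G1 (U ::ₘ Z) = (G1.card : ℤ) := by
        rw [J_cons_right, J_eq_zero (fun X hX Y hY => disjoint_of_subset_left (hG1sub X hX) (hZdis Y hY)), add_zero]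
        apply D_eq_card
        intro X hX hd
        have := disjoint_of_subset_left ((hG1sub X hX).trans hMU) hd
        rw [disjoint_self] at this
        exact (gn1 X hX).ne_empty this
      have e2 : J F1 F2 = 0 :=
        J_eq_zero (fun X hX Y hY => disjoint_of_subset_left (hsub1 X hX) (hdis2 Y hY))
      have e3 : D M F1 = (F1.card : ℤ) := by
        apply D_eq_card
        intro X hX hd
        have := disjoint_of_subset_left (hsub1 X hX) hd
        rw [disjoint_self] at this
        exact (hn1 X hX).ne_empty this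
      have e4 : D M F2 = 0 := D_eq_zero hdis2
      have e5 : D V (M ::ₘ R) = 1 + D V F1 + D V F2 := by
        rw [D_cons, dl_eq_one hMV, ← hR, D_add]
        ring
      have e6 : D (M ∩ V) F1 = D V F1 := by
        apply D_congr
        intro X hX
        constructor
        · intro h
          rw [Finset.disjoint_left] at h ⊢
          intro v h1 h2
          exact h (mem_inter.2 ⟨hsub1 X hX h2, h1⟩) h2
        · intro h
          exact disjoint_of_subset_left inter_subset_right h
      have e7 : D (M ∪ V) F2 = D V F2 := by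
        apply D_congr
        intro X hX
        rw [disjoint_union_left]
        exact ⟨fun h => h.2, fun h => ⟨hdis2 X hX, h⟩⟩
      have e8 := q_super N M V
      rw [Psi_add, e1, gcard1, e5, Psi_cons N hMne, ← hR, Psi_add, e2, D_add, e3, e4]
      rw [e6] at gP1
      rw [e7] at gP2
      push_cast
      linarith

end Pool.Agent.Lib.H68E
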