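import Pool.Agent.Lib.H68E.Step

/-!
# H68E: the cover of a digraph with positive integral lengths
-/

set_option autoImplicit false

open Finset

namespace Pool.Agent.Lib.H68E

section general

variable {α : Type*} [DecidableEq α]

theorem card_le_sum_cnt (Λ : Finset α) : ∀ (F : Multiset (Finset α)), (∀ X ∈ F, X ⊆ Λ) → Nes F →
    F.card ≤ ∑ x ∈ Λ, cnt F x := by
  intro F
  induction F using Multiset.induction_on with
  | empty => intro _ _; simp
  | cons a F ih =>
    intro hsub hne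
    have h1 := ih (fun X hX => hsub X (Multiset.mem_cons_of_mem hX)) (fun X hX => hne X (Multiset.mem_cons_of_mem hX))
    have h2 : ∑ x ∈ Λ, cnt (a ::ₘ F) x = ∑ x ∈ Λ, cnt F x + ∑ x ∈ Λ, (if x ∈ a then 1 else 0) := by
      rw [← sum_add_distrib]
      exact sum_congr rfl (fun x _ => cnt_cons a F x)
    have h3 : 1 ≤ ∑ x ∈ Λ, (if x ∈ a then 1 else 0) := by
      obtain ⟨x, hx⟩ := hne a (Multiset.mem_cons_self _ _)
      have h4 : (if x ∈ a then 1 else 0) ≤ ∑ x ∈ Λ, (if x ∈ a then 1 else 0) :=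
        single_le_sum (f := fun x => if x ∈ a then 1 else 0) (fun _ _ => Nat.zero_le _)
          (hsub a (Multiset.mem_cons_self _ _) hx)
      rw [if_pos hx] at h4
      exact h4
    rw [h2, Multiset.card_cons]
    omega

theorem D_le_card (V : Finset α) (F : Multiset (Finset α)) : D V F ≤ (F.card : ℤ) := by
  induction F using Multiset.induction_on with
  | empty => simp [D]
  | cons a F ih =>
    rw [D_cons, Multiset.card_cons]
    push_cast
    linarith [dl_le_one V a]

theorem J_le_card (F G : Multiset (Finset α)) : J F G ≤ (F.card : ℤ) * G.card := by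
  induction F using Multiset.induction_on with
  | empty => simp [J]
  | cons a F ih =>
    rw [J_cons_left, Multiset.card_cons]
    push_cast
    linarith [D_le_card a G]

theorem Sq_le (N : α → Finset α) (Λ : Finset α) (F : Multiset (Finset α)) (hsub : ∀ X ∈ F, X ⊆ Λ) :
    Sq N F ≤ 2 * (Λ.card : ℤ) * F.card := by
  induction F using Multiset.induction_on with
  | empty => simp [Sq]
  | cons a F ih =>
    have h1 := ih (fun X hX => hsub X (Multiset.mem_cons_of_mem hX))
    have h2 : q N a ≤ 2 * (Λ.card : ℤ) := by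
      unfold q
      have h3 : a.card ≤ Λ.card := card_le_card (hsub a (Multiset.mem_cons_self _ _))
      have h4 : (0 : ℤ) ≤ ((cl N a).card : ℤ) := Int.natCast_nonneg _
      have h5 : (a.card : ℤ) ≤ Λ.card := by exact_mod_cast h3
      linarith
    rw [Sq_cons, Multiset.card_cons]
    push_cast
    linarith

theorem Psi_le (N : α → Finset α) (Λ : Finset α) (F : Multiset (Finset α)) (hsub : ∀ X ∈ F, X ⊆ Λ) (M : ℕ)
    (hM : F.card ≤ M) : Psi N F ≤ 4 * (Λ.card : ℤ) * M + M * M := by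
  have h1 := Sq_le N Λ F hsub
  have h2 := J_le_card F F
  have h3 : (F.card : ℤ) ≤ M := by exact_mod_cast hM
  have h4 : (0 : ℤ) ≤ F.card := Int.natCast_nonneg _
  have h5 : (0 : ℤ) ≤ Λ.card := Int.natCast_nonneg _
  unfold Psi
  nlinarith [mul_le_mul_of_nonneg_left h3 h5, mul_le_mul h3 h3 h4 (h4.trans h3)]

end general

section cover

variable {V : Type*} [Fintype V] [DecidableEq V]

open Classical in
/-- In-neighbours in the cover. -/
noncomputable def Nc (A : V → V → Prop) (l : V → V → ℤ) (x : V × ℤ) : Finset (V × ℤ) :=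
  (univ.filter (fun u => A u x.1)).image (fun u => (u, x.2 - l u x.1))

open Classical in
/-- Out-neighbours in the cover. -/
noncomputable def Oc (A : V → V → Prop) (l : V → V → ℤ) (x : V × ℤ) : Finset (V × ℤ) :=
  (univ.filter (fun w => A x.1 w)).image (fun w => (w, x.2 + l x.1 w))

theorem mem_Nc {A : V → V → Prop} {l : V → V → ℤ} {x y : V × ℤ} :
    y ∈ Nc A l x ↔ A y.1 x.1 ∧ y.2 = x.2 - l y.1 x.1 := by
  classical
  unfold Nc
  rw [mem_image]
  constructor
  · rintro ⟨u, hu, rfl⟩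
    rw [mem_filter] at hu
    exact ⟨hu.2, rfl⟩
  · rintro ⟨h1, h2⟩
    exact ⟨y.1, mem_filter.2 ⟨mem_univ _, h1⟩, by rw [← h2]⟩

theorem mem_Oc {A : V → V → Prop} {l : V → V → ℤ} {x y : V × ℤ} :
    y ∈ Oc A l x ↔ A x.1 y.1 ∧ y.2 = x.2 + l x.1 y.1 := by
  classical
  unfold Oc
  rw [mem_image]
  constructor
  · rintro ⟨u, hu, rfl⟩
    rw [mem_filter] at hu
    exact ⟨hu.2, rfl⟩
  · rintro ⟨h1, h2⟩
    exact ⟨y.1, mem_filter.2 ⟨mem_univ _, h1⟩, by rw [← h2]⟩

theorem rel_cover (A : V → V → Prop) (l : V → V → ℤ) (x y : V × ℤ) : x ∈ Nc A l y ↔ y ∈ Oc A l x := by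
  rw [mem_Nc, mem_Oc]
  constructor
  · rintro ⟨h1, h2⟩
    exact ⟨h1, by rw [h2]; ring⟩
  · rintro ⟨h1, h2⟩
    exact ⟨h1, by rw [h2]; ring⟩

open Classical in
theorem card_Nc (A : V → V → Prop) (l : V → V → ℤ) (x : V × ℤ) :
    (Nc A l x).card = (univ.filter (fun u => A u x.1)).card := by
  unfold Nc
  apply card_image_of_injOn
  intro u _ u' _ h
  exact (Prod.mk.inj h).1

open Classical in
theorem card_Oc (A : V → V → Prop) (l : V → V → ℤ) (x : V × ℤ) :
    (Oc A l x).card = (univ.filter (fun w => A x.1 w)).card := by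
  unfold Oc
  apply card_image_of_injOn
  intro u _ u' _ h
  exact (Prod.mk.inj h).1

/-- The scanned part of the cover: everything of height `< t`, and the vertices of `F` at height `t`. -/
def Sc (t : ℤ) (F : Finset V) : Set (V × ℤ) := {x | x.2 < t ∨ (x.2 = t ∧ x.1 ∈ F)}

theorem Sc_insert (t : ℤ) (F : Finset V) (v : V) : Sc t (insert v F) = insert (v, t) (Sc t F) := by
  ext x
  unfold Sc
  simp only [Set.mem_setOf_eq, Set.mem_insert_iff, mem_insert]
  constructor
  · rintro (h | ⟨h1, h2 | h2⟩)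
    · exact Or.inr (Or.inl h)
    · exact Or.inl (Prod.ext h2 h1)
    · exact Or.inr (Or.inr ⟨h1, h2⟩)
  · rintro (h | h | ⟨h1, h2⟩)
    · rw [h]
      exact Or.inr ⟨rfl, Or.inl rfl⟩
    · exact Or.inl h
    · exact Or.inr ⟨h1, Or.inr h2⟩

theorem Sc_univ (t : ℤ) : Sc t (univ : Finset V) = Sc (t + 1) ∅ := by
  ext x
  unfold Sc
  simp only [Set.mem_setOf_eq, mem_univ, and_true, notMem_empty, and_false, or_false]
  omega

theorem layer {A : V → V → Prop} {l : V → V → ℤ} (hl : ∀ u v, A u v → 1 ≤ l u v)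
    (hdeg : ∀ x, (Oc A l x).card ≤ (Nc A l x).card) (t : ℤ) : ∀ (F : Finset V) (G : Multiset (Finset (V × ℤ))),
    Valid (Oc A l) (Sc t F) G → ∃ G', Valid (Oc A l) (Sc t ∅) G' ∧
      Psi (Nc A l) G + 2 * ∑ v ∈ F, q (Nc A l) (Nc A l (v, t)) ≤ Psi (Nc A l) G' := by
  intro F
  induction F using Finset.induction_on with
  | empty =>
    intro G hG
    exact ⟨G, hG, by simp⟩
  | insert v F hv ih =>
    intro G hG
    rw [Sc_insert] at hG
    have hlow : ∀ x ∈ Sc t F, ∀ y ∈ Nc A l x, y ∈ Sc t F := by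
      intro x hx y hy
      rw [mem_Nc] at hy
      have h1 := hl _ _ hy.1
      unfold Sc at hx ⊢
      rw [Set.mem_setOf_eq] at hx ⊢
      left
      rcases hx with hx | hx <;> omega
    have hw : (v, t) ∉ Sc t F := by
      unfold Sc
      rw [Set.mem_setOf_eq]
      rintro (h | h)
      · exact lt_irrefl _ h
      · exact hv h.2
    have hNw : ∀ y ∈ Nc A l (v, t), y ∈ Sc t F := by
      intro y hy
      rw [mem_Nc] at hy
      have h1 := hl _ _ hy.1
      unfold Sc
      rw [Set.mem_setOf_eq]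
      left
      have h2 := hy.2
      simp only at h2
      have h3 : 1 ≤ l y.1 v := h1
      omega
    obtain ⟨G1, hG1, hP1⟩ := step (Nc A l) (Oc A l) (rel_cover A l) (Sc t F) hlow hw hNw (hdeg _) hG
    obtain ⟨G2, hG2, hP2⟩ := ih G1 hG1
    refine ⟨G2, hG2, ?_⟩
    rw [sum_insert hv]
    linarith

theorem layers {A : V → V → Prop} {l : V → V → ℤ} (hl : ∀ u v, A u v → 1 ≤ l u v)
    (hdeg : ∀ x, (Oc A l x).card ≤ (Nc A l x).card) (δ : ℤ)
    (hδ : ∀ t, δ ≤ ∑ v, q (Nc A l) (Nc A l (v, t))) : ∀ (k : ℕ), ∃ G, Valid (Oc A l) (Sc (0 : ℤ) (∅ : Finset V)) G ∧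
      2 * (k : ℤ) * δ ≤ Psi (Nc A l) G := by
  have key : ∀ (k : ℕ) (G : Multiset (Finset (V × ℤ))), Valid (Oc A l) (Sc (k : ℤ) (∅ : Finset V)) G →
      ∃ G', Valid (Oc A l) (Sc (0 : ℤ) (∅ : Finset V)) G' ∧ Psi (Nc A l) G + 2 * (k : ℤ) * δ ≤ Psi (Nc A l) G' := by
    intro k
    induction k with
    | zero =>
      intro G hG
      exact ⟨G, by simpa using hG, by simp⟩
    | succ k ih =>
      intro G hG
      have h1 : ((k + 1 : ℕ) : ℤ) = (k : ℤ) + 1 := by push_cast; ring
      rw [h1, ← Sc_univ] at hG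
      obtain ⟨G1, hG1, hP1⟩ := layer hl hdeg (k : ℤ) univ G hG
      obtain ⟨G2, hG2, hP2⟩ := ih G1 hG1
      refine ⟨G2, hG2, ?_⟩
      have h2 := hδ (k : ℤ)
      rw [h1]
      linarith
  intro k
  have h0 : Valid (Oc A l) (Sc (k : ℤ) (∅ : Finset V)) 0 := by
    refine ⟨fun X hX => absurd hX (Multiset.notMem_zero _), fun X hX => absurd hX (Multiset.notMem_zero _), fun v => ?_⟩
    rw [cnt_zero]
    exact Nat.zero_le _
  obtain ⟨G, hG, hP⟩ := key k 0 h0
  rw [Psi_zero, zero_add] at hP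
  exact ⟨G, hG, hP⟩

theorem bounded {A : V → V → Prop} {l : V → V → ℤ} (N : V × ℤ → Finset (V × ℤ)) : ∃ K : ℤ, ∀ G,
    Valid (Oc A l) (Sc (0 : ℤ) (∅ : Finset V)) G → Psi N G ≤ K := by
  classical
  obtain ⟨L, hL⟩ : ∃ L : ℤ, ∀ u v, l u v ≤ L := by
    obtain ⟨L, hL⟩ := (Set.finite_range (fun p : V × V => l p.1 p.2)).bddAbove
    exact ⟨L, fun u v => hL ⟨(u, v), rfl⟩⟩
  set Λ : Finset (V × ℤ) := univ ×ˢ Finset.Ico (-L) 0 with hΛ
  set M : ℕ := Λ.card * Fintype.card V with hM
  refine ⟨4 * (Λ.card : ℤ) * M + M * M, fun G hG => ?_⟩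
  have hsub : ∀ X ∈ G, X ⊆ Λ := by
    intro X hX x hx
    have h1 := cnt_pos hX hx
    have h2 := hG.2.2 x
    have h3 : 0 < gS (Oc A l) (Sc (0 : ℤ) (∅ : Finset V)) x := lt_of_lt_of_le h1 h2
    unfold gS at h3
    split at h3
    · rename_i hxS
      rw [Set.ncard_pos ((finite_toSet _).subset Set.diff_subset)] at h3
      obtain ⟨y, hy1, hy2⟩ := h3
      rw [mem_coe, mem_Oc] at hy1
      unfold Sc at hxS hy2
      simp only [Set.mem_setOf_eq, notMem_empty, and_false, or_false] at hxS hy2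
      rw [hΛ, mem_product, mem_Ico]
      refine ⟨mem_univ _, ?_, hxS⟩
      have := hL x.1 y.1
      have := hy1.2
      omega
    · exact absurd h3 (lt_irrefl _)
  have hcard : G.card ≤ M := by
    refine (card_le_sum_cnt Λ G hsub hG.2.1).trans ?_
    rw [hM, ← smul_eq_mul, ← Finset.sum_const]
    apply sum_le_sum
    intro x _
    refine (hG.2.2 x).trans ?_
    unfold gS
    split
    · refine (Set.ncard_le_ncard Set.diff_subset (finite_toSet _)).trans ?_
      rw [Set.ncard_coe_finset, card_Oc]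
      exact card_le_univ _
    · exact Nat.zero_le _
  exact Psi_le N Λ G hsub M hcard

open Classical in
/-- The pairs `(u, x)` such that a path `u → m → v` has length `x` and `u → v` is not an arc of length `x`. -/
noncomputable def Pv (A : V → V → Prop) (l : V → V → ℤ) (v : V) : Finset (V × ℤ) :=
  ((univ.filter (fun p : V × V => A p.1 p.2 ∧ A p.2 v)).image (fun p => (p.1, l p.1 p.2 + l p.2 v))).filter
    (fun z => ¬ (A z.1 v ∧ z.2 = l z.1 v))

theorem mem_Pv {A : V → V → Prop} {l : V → V → ℤ} {v : V} {z : V × ℤ} :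
    z ∈ Pv A l v ↔ (∃ m, A z.1 m ∧ A m v ∧ z.2 = l z.1 m + l m v) ∧ ¬ (A z.1 v ∧ z.2 = l z.1 v) := by
  classical
  unfold Pv
  rw [mem_filter, mem_image]
  constructor
  · rintro ⟨⟨p, hp, rfl⟩, h⟩
    rw [mem_filter] at hp
    exact ⟨⟨p.2, hp.2.1, hp.2.2, rfl⟩, h⟩
  · rintro ⟨⟨m, h1, h2, h3⟩, h⟩
    exact ⟨⟨(z.1, m), mem_filter.2 ⟨mem_univ _, h1, h2⟩, by rw [← h3]⟩, h⟩

theorem q_cover {A : V → V → Prop} {l : V → V → ℤ} (v : V) (t : ℤ) :
    ((Nc A l (v, t)).card : ℤ) - (Pv A l v).card ≤ q (Nc A l) (Nc A l (v, t)) := by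
  classical
  unfold q
  have h1 : (cl (Nc A l) (Nc A l (v, t))).card ≤ (Nc A l (v, t)).card + (Pv A l v).card := by
    have h2 : cl (Nc A l) (Nc A l (v, t)) ⊆ Nc A l (v, t) ∪ (Pv A l v).image (fun z => (z.1, t - z.2)) := by
      intro y hy
      unfold cl at hy
      rw [mem_union, mem_biUnion] at hy
      rw [mem_union]
      rcases hy with hy | ⟨m, hm, hym⟩
      · exact Or.inl hy
      · by_cases h : y ∈ Nc A l (v, t)
        · exact Or.inl h
        · right
          rw [mem_image]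
          rw [mem_Nc] at hm hym h
          refine ⟨(y.1, t - y.2), mem_Pv.2 ⟨⟨m.1, hym.1, hm.1, ?_⟩, ?_⟩, ?_⟩
          · have e1 := hm.2
            have e2 := hym.2
            simp only at e1 e2 ⊢
            omega
          · rintro ⟨h3, h4⟩
            apply h
            refine ⟨h3, ?_⟩
            simp only at h4 ⊢
            omega
          · ext
            · rfl
            · simp
    refine (card_le_card h2).trans ((card_union_le _ _).trans ?_)
    have := card_image_le (s := Pv A l v) (f := fun z => (z.1, t - z.2))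
    omega
  zify at h1
  linarith

open Classical in
/-- **Theorem B for integral lengths.** -/
theorem cover_int {A : V → V → Prop} {l : V → V → ℤ} (hl : ∀ u v, A u v → 1 ≤ l u v)
    (hdeg : ∀ v, (univ.filter (fun w => A v w)).card ≤ (univ.filter (fun u => A u v)).card) :
    ∑ v, (univ.filter (fun u => A u v)).card ≤ ∑ v, (Pv A l v).card := by
  by_contra hcon
  push_neg at hcon
  set δ : ℤ := ∑ v, ((univ.filter (fun u => A u v)).card : ℤ) - ∑ v, ((Pv A l v).card : ℤ) with hδ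
  have hδ1 : 1 ≤ δ := by
    rw [hδ]
    zify at hcon
    linarith
  have hdeg' : ∀ x, (Oc A l x).card ≤ (Nc A l x).card := by
    intro x
    rw [card_Oc, card_Nc]
    exact hdeg x.1
  have hδt : ∀ t, δ ≤ ∑ v, q (Nc A l) (Nc A l (v, t)) := by
    intro t
    rw [hδ, ← sum_sub_distrib]
    apply sum_le_sum
    intro v _
    have := q_cover (A := A) (l := l) v t
    rw [card_Nc] at this
    exact this
  obtain ⟨K, hK⟩ := bounded (A := A) (l := l) (Nc A l)
  obtain ⟨G, hG, hP⟩ := layers hl hdeg' δ hδt (K.toNat + 1)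
  have h1 := hK G hG
  have h2 : K ≤ K.toNat := Int.self_le_toNat K
  push_cast at hP
  have h3 : (0 : ℤ) ≤ K.toNat := Int.natCast_nonneg _
  nlinarith

end cover

end Pool.Agent.Lib.H68E
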