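import Pool.Agent.Lib.H68E.Real

/-!
# H68E: second out-neighbourhoods and arc lengths
-/

set_option autoImplicit false

open Finset

namespace Pool.Agent.Lib.H68E

theorem sum_ncard {V : Type*} [Fintype V] (S : V → Set V) :
    ({p : V × V | p.2 ∈ S p.1}.ncard : ℕ) = ∑ v, (S v).ncard := by
  classical
  have h1 : {p : V × V | p.2 ∈ S p.1} =
      ((univ.biUnion (fun v => (S v).toFinset.image (fun w => (v, w))) : Finset (V × V)) : Set (V × V)) := by
    ext p
    simp only [Set.mem_setOf_eq, coe_biUnion, mem_coe, mem_univ, Set.iUnion_true, Set.mem_iUnion, mem_image,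
      Set.mem_toFinset]
    constructor
    · intro h
      exact ⟨p.1, p.2, h, rfl⟩
    · rintro ⟨v, w, hw, rfl⟩
      exact hw
  rw [h1, Set.ncard_coe_finset, card_biUnion]
  · apply sum_congr rfl
    intro v _
    rw [card_image_of_injective _ (fun w w' h => (Prod.mk.inj h).2), Set.ncard_eq_toFinset_card']
  · intro v _ v' _ hvv
    rw [Function.onFun, Finset.disjoint_left]
    intro z hz hz'
    rw [mem_image] at hz hz'
    obtain ⟨y, _, rfl⟩ := hz
    obtain ⟨y', _, h⟩ := hz'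
    exact hvv (Prod.mk.inj h).1.symm

/-- The triples `(u, w, x)`, `x` the length of a path `u → v → w`, where `u → w` is an arc of a length different
from `x`, or `u → w` is not an arc and a shorter path `u → v → w` exists. -/
def badTriples {V : Type*} (A : V → V → Prop) (l : V → V → ℝ) : Set (V × V × ℝ) :=
  {z | (∃ v, A z.1 v ∧ A v z.2.1 ∧ z.2.2 = l z.1 v + l v z.2.1) ∧
    ((A z.1 z.2.1 ∧ z.2.2 ≠ l z.1 z.2.1) ∨
      (¬ A z.1 z.2.1 ∧ ∃ v, A z.1 v ∧ A v z.2.1 ∧ l z.1 v + l v z.2.1 < z.2.2))}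

theorem main {V : Type*} [Fintype V] (A : V → V → Prop) (hdig : ∀ u v, A u v → ¬ A v u)
    (hbal : ∀ v, {w | A v w}.ncard = {w | A w v}.ncard) (l : V → V → ℝ) (hl : ∀ u v, A u v → 0 < l u v) :
    ∑ v, {w | A v w}.ncard ≤
      ∑ v, {w | w ≠ v ∧ ¬ A v w ∧ ∃ u, A v u ∧ A u w}.ncard + (badTriples A l).ncard := by
  classical
  have hc : ∀ p : V → Prop, {w | p w}.ncard = (univ.filter (fun w => p w)).card := by
    intro p
    rw [Set.ncard_eq_toFinset_card']
    congr 1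
    ext w
    simp
  have h1 : ∑ v, {w | A v w}.ncard = ∑ v, (univ.filter (fun u => A u v)).card := by
    apply sum_congr rfl
    intro v _
    rw [hbal, hc]
  have h2 : ∀ v, (univ.filter (fun w => A v w)).card ≤ (univ.filter (fun u => A u v)).card := by
    intro v
    rw [← hc, ← hc]
    exact (hbal v).le
  rw [h1]
  refine (cover_real hl h2).trans ?_
  rw [← sum_ncard (fun v => {w | w ≠ v ∧ ¬ A v w ∧ ∃ u, A v u ∧ A u w})]
  set Gd : Set (V × V × ℝ) := RS A l \ badTriples A l with hGd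
  have hfin := RS_finite A l
  have h3 : RS A l ⊆ Gd ∪ badTriples A l := by
    intro z hz
    by_cases h : z ∈ badTriples A l
    · exact Or.inr h
    · exact Or.inl ⟨hz, h⟩
  have hbfin : (badTriples A l).Finite := by
    apply hfin.subset
    rintro z ⟨hz1, hz2⟩
    refine ⟨hz1, ?_⟩
    rcases hz2 with h | h
    · exact fun h' => h.2 h'.2
    · exact fun h' => h.1 h'.1
  have hGfin : Gd.Finite := hfin.subset Set.diff_subset
  have h4 : (RS A l).ncard ≤ Gd.ncard + (badTriples A l).ncard :=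
    (Set.ncard_le_ncard h3 (hGfin.union hbfin)).trans (Set.ncard_union_le _ _)
  have h5 : Gd.ncard ≤ {p : V × V | p.2 ∈ {w | w ≠ p.1 ∧ ¬ A p.1 w ∧ ∃ u, A p.1 u ∧ A u w}}.ncard := by
    apply Set.ncard_le_ncard_of_injOn (fun z : V × V × ℝ => (z.1, z.2.1))
    · rintro ⟨u, w, x⟩ ⟨⟨⟨v, hv1, hv2, hv3⟩, hz⟩, hb⟩
      simp only at hv1 hv2 hv3 hz
      have hA : ¬ A u w := by
        intro h
        apply hb
        refine ⟨⟨v, hv1, hv2, hv3⟩, Or.inl ⟨h, fun h' => hz ⟨h, h'⟩⟩⟩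
      refine ⟨?_, hA, v, hv1, hv2⟩
      intro (h : w = u)
      rw [h] at hv2
      exact hdig _ _ hv1 hv2
    · rintro ⟨u, w, x⟩ ⟨⟨⟨v, hv1, hv2, hv3⟩, hz⟩, hb⟩ ⟨u', w', x'⟩ ⟨⟨⟨v', hv1', hv2', hv3'⟩, hz'⟩, hb'⟩ h
      simp only [Prod.mk.injEq] at h
      obtain ⟨rfl, rfl⟩ := h
      simp only at hv1 hv2 hv3 hv1' hv2' hv3' hz hz'
      have hA : ¬ A u w := by
        intro h
        apply hb
        exact ⟨⟨v, hv1, hv2, hv3⟩, Or.inl ⟨h, fun h' => hz ⟨h, h'⟩⟩⟩
      have e1 : ¬ x' < x := by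
        intro hlt
        apply hb
        refine ⟨⟨v, hv1, hv2, hv3⟩, Or.inr ⟨hA, v', hv1', hv2', ?_⟩⟩
        rw [← hv3']
        exact hlt
      have e2 : ¬ x < x' := by
        intro hlt
        apply hb'
        refine ⟨⟨v', hv1', hv2', hv3'⟩, Or.inr ⟨hA, v, hv1, hv2, ?_⟩⟩
        rw [← hv3]
        exact hlt
      have : x = x' := le_antisymm (not_lt.1 e1) (not_lt.1 e2)
      rw [this]
  exact h4.trans (Nat.add_le_add_right h5 _)

end Pool.Agent.Lib.H68E
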