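import Pool.Agent.Lib.H68E.Cover

/-!
# H68E: from real lengths to integral lengths
-/

set_option autoImplicit false

open Finset

namespace Pool.Agent.Lib.H68E

/-- Simultaneous approximation with a large multiplier (pigeonhole). -/
theorem approx {ι : Type*} [Finite ι] (x : ι → ℝ) (M : ℕ) (hM : 1 ≤ M) :
    ∃ m : ℕ, M ≤ m ∧ ∃ a : ι → ℤ, ∀ i, |(m : ℝ) * x i - a i| < 1 / 8 := by
  have h8 : ∀ y : ℝ, ⌊8 * Int.fract y⌋.toNat < 8 := by
    intro y
    have h1 := Int.fract_nonneg y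
    have h2 := Int.fract_lt_one y
    have h3 : ⌊8 * Int.fract y⌋ < 8 := by
      rw [Int.floor_lt]
      push_cast
      linarith
    omega
  obtain ⟨j, k, hjk, hf⟩ := Finite.exists_ne_map_eq_of_infinite
    (fun (j : ℕ) (i : ι) => (⟨⌊8 * Int.fract ((j : ℝ) * (M * x i))⌋.toNat, h8 _⟩ : Fin 8))
  wlog hlt : j < k generalizing j k
  · exact this k j hjk.symm hf.symm (lt_of_le_of_ne (not_lt.1 hlt) hjk.symm)
  refine ⟨(k - j) * M, ?_, fun i => ⌊(k : ℝ) * (M * x i)⌋ - ⌊(j : ℝ) * (M * x i)⌋, fun i => ?_⟩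
  · have : 1 ≤ k - j := by omega
    calc M = 1 * M := (one_mul M).symm
      _ ≤ (k - j) * M := Nat.mul_le_mul_right M this
  · have h1 := congrFun hf i
    rw [Fin.mk.injEq] at h1
    set u : ℝ := (j : ℝ) * (M * x i) with hu
    set v : ℝ := (k : ℝ) * (M * x i) with hv
    have hu0 : 0 ≤ ⌊8 * Int.fract u⌋ := Int.floor_nonneg.2 (by linarith [Int.fract_nonneg u])
    have hv0 : 0 ≤ ⌊8 * Int.fract v⌋ := Int.floor_nonneg.2 (by linarith [Int.fract_nonneg v])
    have h2 : ⌊8 * Int.fract u⌋ = ⌊8 * Int.fract v⌋ := by omega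
    have h3 := Int.floor_le (8 * Int.fract u)
    have h4 := Int.lt_floor_add_one (8 * Int.fract u)
    have h5 := Int.floor_le (8 * Int.fract v)
    have h6 := Int.lt_floor_add_one (8 * Int.fract v)
    rw [h2] at h3 h4
    have h7 : (((k - j) * M : ℕ) : ℝ) * x i - ((⌊v⌋ - ⌊u⌋ : ℤ) : ℝ) = Int.fract v - Int.fract u := by
      rw [Nat.cast_mul, Nat.cast_sub hlt.le]
      unfold Int.fract
      push_cast
      rw [hu, hv]
      ring
    rw [h7, abs_lt]
    constructor <;> linarith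

variable {V : Type*} [Fintype V]

/-- Triples `(u, w, x)` such that a path `u → v → w` has length `x` and `u → w` is not an arc of length `x`. -/
def RS (A : V → V → Prop) (l : V → V → ℝ) : Set (V × V × ℝ) :=
  {z | (∃ v, A z.1 v ∧ A v z.2.1 ∧ z.2.2 = l z.1 v + l v z.2.1) ∧ ¬ (A z.1 z.2.1 ∧ z.2.2 = l z.1 z.2.1)}

theorem RS_finite (A : V → V → Prop) (l : V → V → ℝ) : (RS A l).Finite := by
  have : RS A l ⊆ Set.range (fun p : V × V × V => (p.1, p.2.2, l p.1 p.2.1 + l p.2.1 p.2.2)) := by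
    rintro z ⟨⟨v, -, -, h⟩, -⟩
    exact ⟨(z.1, v, z.2.1), Prod.ext rfl (Prod.ext rfl h.symm)⟩
  exact (Set.finite_range _).subset this

open Classical in
/-- **Theorem B for real lengths.** -/
theorem cover_real {A : V → V → Prop} {l : V → V → ℝ} (hl : ∀ u v, A u v → 0 < l u v)
    (hdeg : ∀ v, (univ.filter (fun w => A v w)).card ≤ (univ.filter (fun u => A u v)).card) :
    ∑ v, (univ.filter (fun u => A u v)).card ≤ (RS A l).ncard := by
  classical
  obtain ⟨M, hM1, hM⟩ : ∃ M : ℕ, 1 ≤ M ∧ ∀ u v, A u v → 1 ≤ (M : ℝ) * l u v := by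
    obtain ⟨B, hB⟩ := (Set.finite_range (fun p : V × V => (⌈1 / l p.1 p.2⌉₊ : ℕ))).bddAbove
    refine ⟨B + 1, by omega, fun u v huv => ?_⟩
    have h1 : ⌈1 / l u v⌉₊ ≤ B := hB ⟨(u, v), rfl⟩
    have h2 : 1 / l u v ≤ B := (Nat.le_ceil _).trans (by exact_mod_cast h1)
    have h3 := hl u v huv
    rw [div_le_iff₀ h3] at h2
    push_cast
    nlinarith
  obtain ⟨m, hm, a, ha⟩ := approx (fun p : V × V => l p.1 p.2) M hM1
  have ha' : ∀ u v, |(m : ℝ) * l u v - a (u, v)| < 1 / 8 := fun u v => ha (u, v)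
  have hpos : ∀ u v, A u v → 1 ≤ a (u, v) := by
    intro u v huv
    have h1 := hM u v huv
    have h2 := hl u v huv
    have h3 : (M : ℝ) * l u v ≤ m * l u v :=
      mul_le_mul_of_nonneg_right (by exact_mod_cast hm) h2.le
    have h4 := abs_lt.1 (ha' u v)
    have h5 : (0 : ℝ) < a (u, v) := by linarith
    have h6 : (0 : ℤ) < a (u, v) := by exact_mod_cast h5
    omega
  have h0 := cover_int (A := A) (l := fun u v => a (u, v)) hpos hdeg
  refine h0.trans ?_
  -- the integral triples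
  set I : Finset (V × V × ℤ) := univ.biUnion (fun w => (Pv A (fun u v => a (u, v)) w).image (fun z => (z.1, w, z.2)))
    with hI
  have hIcard : ∑ v, (Pv A (fun u v => a (u, v)) v).card = I.card := by
    rw [hI, card_biUnion]
    · apply sum_congr rfl
      intro w _
      rw [card_image_of_injective]
      intro z z' h
      rw [Prod.mk.injEq, Prod.mk.injEq] at h
      exact Prod.ext h.1 h.2.2
    · intro w _ w' _ hww
      rw [Function.onFun, Finset.disjoint_left]
      intro z hz hz'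
      rw [mem_image] at hz hz'
      obtain ⟨y, _, rfl⟩ := hz
      obtain ⟨y', _, h⟩ := hz'
      rw [Prod.mk.injEq, Prod.mk.injEq] at h
      exact hww h.2.1.symm
  rw [hIcard, ← Set.ncard_coe_finset]
  have hsub : (I : Set (V × V × ℤ)) ⊆ (fun z : V × V × ℝ => (z.1, z.2.1, round ((m : ℝ) * z.2.2))) '' RS A l := by
    intro z hz
    rw [mem_coe, hI, mem_biUnion] at hz
    obtain ⟨w, -, hz⟩ := hz
    rw [mem_image] at hz
    obtain ⟨y, hy, rfl⟩ := hz
    rw [mem_Pv] at hy
    obtain ⟨⟨v, h1, h2, h3⟩, h4⟩ := hy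
    have e1 := abs_lt.1 (ha' y.1 v)
    have e2 := abs_lt.1 (ha' v w)
    have e3 := abs_lt.1 (ha' y.1 w)
    have h3' : (y.2 : ℝ) = (a (y.1, v) : ℝ) + a (v, w) := by
      rw [h3]
      push_cast
      ring
    refine ⟨(y.1, w, l y.1 v + l v w), ⟨⟨v, h1, h2, rfl⟩, ?_⟩, ?_⟩
    · rintro ⟨h5, h6⟩
      simp only at h5 h6
      apply h4
      refine ⟨h5, ?_⟩
      have h7 : |((y.2 - a (y.1, w) : ℤ) : ℝ)| < 1 := by
        push_cast
        rw [h3', abs_lt]
        rw [← h6] at e3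
        constructor <;> nlinarith
      have h8 : |y.2 - a (y.1, w)| < 1 := by exact_mod_cast h7
      have := abs_lt.1 h8
      show y.2 = a (y.1, w)
      omega
    · simp only [Prod.mk.injEq, true_and]
      rw [round_eq, Int.floor_eq_iff]
      rw [h3']
      constructor <;> nlinarith
  exact (Set.ncard_le_ncard hsub ((RS_finite A l).image _)).trans (Set.ncard_image_le (RS_finite A l))

end Pool.Agent.Lib.H68E
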