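import Pool.Agent.Lib.H68E.Core

/-!
# H68E: one step of the scan
-/

set_option autoImplicit false

open Finset

namespace Pool.Agent.Lib.H68E

variable {α : Type*} [DecidableEq α]

open Classical in
/-- The number of out-arcs of `v ∈ S` which leave `S`. -/
noncomputable def gS (out : α → Finset α) (S : Set α) (v : α) : ℕ :=
  if v ∈ S then (((out v : Finset α) : Set α) \ S).ncard else 0

/-- Laminar families of nonempty sets using every open out-arc at most once. -/
def Valid (out : α → Finset α) (S : Set α) (F : Multiset (Finset α)) : Prop :=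
  Lam F ∧ Nes F ∧ ∀ v, cnt F v ≤ gS out S v

theorem q_insert (N : α → Finset α) {w : α} {X : Finset α} (hw : w ∉ X) (hcl : w ∉ cl N X) (hwN : w ∉ N w) :
    q N (insert w X) = q N X + 1 - ((N w \ cl N X).card : ℤ) := by
  have h1 : cl N (insert w X) = insert w (cl N X ∪ (N w \ cl N X)) := by
    unfold cl
    rw [biUnion_insert]
    ext v
    simp only [mem_union, mem_insert, mem_sdiff]
    tauto
  have h2 : w ∉ cl N X ∪ (N w \ cl N X) := by
    rw [mem_union, mem_sdiff]
    rintro (h | h)
    · exact hcl h
    · exact hwN h.1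
  have h3 : Disjoint (cl N X) (N w \ cl N X) := disjoint_sdiff
  unfold q
  rw [h1, card_insert_of_notMem h2, card_union_of_disjoint h3, card_insert_of_notMem hw]
  push_cast
  ring

theorem gS_insert_self (out : α → Finset α) (S : Set α) (w : α) : gS out (insert w S) w ≤ (out w).card := by
  classical
  unfold gS
  split
  · rw [← Set.ncard_coe_finset (out w)]
    exact Set.ncard_le_ncard Set.diff_subset (finite_toSet _)
  · exact Nat.zero_le _

theorem gS_insert (N out : α → Finset α) (hrel : ∀ v w, v ∈ N w ↔ w ∈ out v) (S : Set α) {w : α}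
    (hwS : w ∉ S) (hNw : ∀ v ∈ N w, v ∈ S) {v : α} (hvw : v ≠ w) :
    gS out (insert w S) v + (if v ∈ N w then 1 else 0) ≤ gS out S v := by
  classical
  unfold gS
  by_cases hv : v ∈ S
  · rw [if_pos (Set.mem_insert_of_mem _ hv), if_pos hv]
    by_cases hvN : v ∈ N w
    · rw [if_pos hvN]
      have h1 : w ∈ ((out v : Finset α) : Set α) \ S := ⟨mem_coe.2 ((hrel v w).1 hvN), hwS⟩
      have h2 : ((out v : Finset α) : Set α) \ insert w S ⊆ (((out v : Finset α) : Set α) \ S) \ {w} := by
        rintro x ⟨hx1, hx2⟩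
        rw [Set.mem_insert_iff, not_or] at hx2
        exact ⟨⟨hx1, hx2.2⟩, hx2.1⟩
      have h5 : (((out v : Finset α) : Set α) \ S).Finite := (finite_toSet _).subset Set.diff_subset
      have h3 := Set.ncard_le_ncard h2 (h5.subset Set.diff_subset)
      have h4 := Set.ncard_diff_singleton_add_one h1 h5
      omega
    · rw [if_neg hvN, add_zero]
      apply Set.ncard_le_ncard _ ((finite_toSet _).subset Set.diff_subset)
      rintro x ⟨hx1, hx2⟩
      rw [Set.mem_insert_iff, not_or] at hx2
      exact ⟨hx1, hx2.2⟩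
  · have h1 : v ∉ insert w S := by
      rw [Set.mem_insert_iff, not_or]
      exact ⟨hvw, hv⟩
    have h2 : v ∉ N w := fun h => hv (hNw v h)
    rw [if_neg h1, if_neg hv, if_neg h2]

theorem mem_of_valid {out : α → Finset α} {S : Set α} {F : Multiset (Finset α)} (h : Valid out S F)
    {X : Finset α} (hX : X ∈ F) {v : α} (hv : v ∈ X) : v ∈ S := by
  classical
  have h1 := cnt_pos hX hv
  have h2 := h.2.2 v
  unfold gS at h2
  by_contra hvS
  rw [if_neg hvS] at h2
  omega

theorem D_le_of_le (V : Finset α) {F G : Multiset (Finset α)} (h : F ≤ G) : D V F ≤ D V G := by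
  obtain ⟨H, rfl⟩ := Multiset.le_iff_exists_add.1 h
  rw [D_add]
  linarith [D_nonneg V H]

theorem arith_p (p m d : ℤ) (hp : 0 ≤ p) (hmd : m ≤ d) : p * (1 - 2 * d + 2 * m - p) ≤ 0 := by
  rcases eq_or_lt_of_le hp with h | h
  · rw [← h]
    simp
  · apply mul_nonpos_of_nonneg_of_nonpos hp
    have : 1 ≤ p := h
    linarith

/-- **One step of the scan.** -/
theorem step (N out : α → Finset α) (hrel : ∀ v w, v ∈ N w ↔ w ∈ out v) (S : Set α)
    (hS : ∀ v ∈ S, ∀ u ∈ N v, u ∈ S) {w : α} (hwS : w ∉ S) (hNw : ∀ v ∈ N w, v ∈ S)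
    (hdeg : (out w).card ≤ (N w).card) {G : Multiset (Finset α)} (hG : Valid out (insert w S) G) :
    ∃ F : Multiset (Finset α), Valid out S F ∧ Psi N G + 2 * q N (N w) ≤ Psi N F := by
  classical
  obtain ⟨hL, hne, hcap⟩ := hG
  have hmem : ∀ X ∈ G, ∀ v ∈ X, v ≠ w → v ∈ S := by
    intro X hX v hv hvw
    have := mem_of_valid ⟨hL, hne, hcap⟩ hX hv
    rw [Set.mem_insert_iff] at this
    rcases this with h | h
    · exact absurd h hvw
    · exact h
  have hmd : cnt G w ≤ (N w).card := (hcap w).trans ((gS_insert_self out S w).trans hdeg)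
  rcases (N w).eq_empty_or_nonempty with hN0 | hV
  · have hc0 : cnt G w = 0 := by
      rw [hN0, card_empty] at hmd
      omega
    refine ⟨G, ⟨hL, hne, fun v => ?_⟩, ?_⟩
    · by_cases hvw : v = w
      · rw [hvw, hc0]
        exact Nat.zero_le _
      · have := gS_insert N out hrel S hwS hNw hvw
        have := hcap v
        omega
    · rw [hN0]
      have : q N ∅ = 0 := by simp [q, cl]
      rw [this]
      linarith
  have hwN : w ∉ N w := fun h => hwS (hNw w h)
  set Gw : Multiset (Finset α) := G.filter (fun X => w ∈ X) with hGw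
  set Z : Multiset (Finset α) := G.filter (fun X => ¬ w ∈ X) with hZ
  have hGsplit : Gw + Z = G := Multiset.filter_add_not _ _
  set P : Multiset (Finset α) := Gw.filter (fun X => X = {w}) with hP
  set Gp : Multiset (Finset α) := Gw.filter (fun X => ¬ X = {w}) with hGp
  have hGwsplit : P + Gp = Gw := Multiset.filter_add_not _ _
  have hGwle : Gw ≤ G := Multiset.filter_le _ _
  have hZle : Z ≤ G := Multiset.filter_le _ _
  have hGple : Gp ≤ G := (Multiset.filter_le _ _).trans hGwle
  have hPle : P ≤ G := (Multiset.filter_le _ _).trans hGwle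
  have hZw : ∀ X ∈ Z, w ∉ X := fun X hX => (Multiset.mem_filter.1 hX).2
  have hGww : ∀ X ∈ Gw, w ∈ X := fun X hX => (Multiset.mem_filter.1 hX).2
  have hGpw : ∀ X ∈ Gp, w ∈ X := fun X hX => hGww X (Multiset.mem_of_le (Multiset.filter_le _ _) hX)
  have hGpn : ∀ X ∈ Gp, X ≠ {w} := fun X hX => (Multiset.mem_filter.1 hX).2
  have hPw : ∀ X ∈ P, X = {w} := fun X hX => (Multiset.mem_filter.1 hX).2
  set er : Finset α → Finset α := fun Y => Y.erase w with her
  set Xw : Multiset (Finset α) := Gp.map er with hXw
  have hm : (Gw.card : ℤ) ≤ (N w).card := by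
    have : cnt G w = Gw.card := by
      unfold cnt
      rw [Multiset.countP_eq_card_filter]
    rw [← this]
    exact_mod_cast hmd
  have hcard : (P.card : ℤ) + Gp.card = Gw.card := by
    rw [← hGwsplit, Multiset.card_add]
    push_cast
    ring
  have hXcard : Xw.card = Gp.card := Multiset.card_map _ _
  -- members of `Xw`
  have hXwmem : ∀ X ∈ Xw, ∃ Y ∈ Gp, X = Y.erase w := by
    intro X hX
    obtain ⟨Y, hY, rfl⟩ := Multiset.mem_map.1 hX
    exact ⟨Y, hY, rfl⟩
  have hXne : ∀ X ∈ Xw, X.Nonempty := by
    intro X hX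
    obtain ⟨Y, hY, rfl⟩ := hXwmem X hX
    rw [Finset.nonempty_iff_ne_empty]
    intro h
    rw [erase_eq_empty_iff] at h
    rcases h with h | h
    · have := hGpw Y hY
      rw [h] at this
      exact absurd this (notMem_empty w)
    · exact hGpn Y hY h
  have hXw' : ∀ X ∈ Xw, w ∉ X := by
    intro X hX
    obtain ⟨Y, hY, rfl⟩ := hXwmem X hX
    exact notMem_erase w Y
  have hchain : ∀ X ∈ Xw, ∀ Y ∈ Xw, X ⊆ Y ∨ Y ⊆ X := by
    intro X hX Y hY
    obtain ⟨X', hX', rfl⟩ := hXwmem X hX
    obtain ⟨Y', hY', rfl⟩ := hXwmem Y hY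
    rcases hL X' (Multiset.mem_of_le hGple hX') Y' (Multiset.mem_of_le hGple hY') with h | h | h
    · exact Or.inl (erase_subset_erase w h)
    · exact Or.inr (erase_subset_erase w h)
    · exact absurd (hGpw Y' hY') (Finset.disjoint_left.1 h (hGpw X' hX'))
  -- the quality of the sets containing `w`
  have hclw : ∀ Y ∈ Gw, w ∉ cl N (Y.erase w) := by
    intro Y hY h
    unfold cl at h
    rw [mem_union, mem_biUnion] at h
    rcases h with h | ⟨x, hx, hxw⟩
    · exact notMem_erase w Y h
    · rw [mem_erase] at hx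
      exact hwS (hS x (hmem Y (Multiset.mem_of_le hGwle hY) x hx.2 hx.1) w hxw)
  have hqY : ∀ Y ∈ Gw, q N Y = q N (Y.erase w) + 1 - ((N w \ cl N (Y.erase w)).card : ℤ) := by
    intro Y hY
    have h1 := q_insert N (notMem_erase w Y) (hclw Y hY) hwN
    rwa [insert_erase (hGww Y hY)] at h1
  -- the family `F0`
  have hL0 : Lam (Z + Xw) := by
    have hZX : ∀ X ∈ Z, ∀ Y ∈ Xw, X ⊆ Y ∨ Disjoint X Y := by
      intro X hX Y hY
      obtain ⟨Y', hY', rfl⟩ := hXwmem Y hY
      rcases hL X (Multiset.mem_of_le hZle hX) Y' (Multiset.mem_of_le hGple hY') with h | h | h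
      · left
        intro v hv
        exact mem_erase.2 ⟨fun h' => hZw X hX (h' ▸ hv), h hv⟩
      · exact absurd (h (hGpw Y' hY')) (hZw X hX)
      · right
        exact disjoint_of_subset_right (erase_subset w Y') h
    intro X hX Y hY
    rw [Multiset.mem_add] at hX hY
    rcases hX with hX | hX <;> rcases hY with hY | hY
    · exact hL X (Multiset.mem_of_le hZle hX) Y (Multiset.mem_of_le hZle hY)
    · rcases hZX X hX Y hY with h | h
      · exact Or.inl h
      · exact Or.inr (Or.inr h)
    · rcases hZX Y hY X hX with h | h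
      · exact Or.inr (Or.inl h)
      · exact Or.inr (Or.inr h.symm)
    · rcases hchain X hX Y hY with h | h
      · exact Or.inl h
      · exact Or.inr (Or.inl h)
  have hN0 : Nes (Z + Xw) := by
    intro X hX
    rw [Multiset.mem_add] at hX
    rcases hX with hX | hX
    · exact hne X (Multiset.mem_of_le hZle hX)
    · exact hXne X hX
  have hc0w : cnt (Z + Xw) w = 0 := by
    apply cnt_eq_zero
    intro X hX
    rw [Multiset.mem_add] at hX
    rcases hX with hX | hX
    · exact hZw X hX
    · exact hXw' X hX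
  have hc0 : ∀ v, v ≠ w → cnt (Z + Xw) v = cnt G v := by
    intro v hvw
    have h1 : cnt Xw v = cnt Gp v := by
      unfold cnt
      rw [hXw, Multiset.countP_map, Multiset.countP_eq_card_filter]
      congr 1
      apply Multiset.filter_congr
      intro Y _
      rw [her]
      simp only [mem_erase]
      exact ⟨fun h => h.2, fun h => ⟨hvw, h⟩⟩
    have h2 : cnt P v = 0 := by
      apply cnt_eq_zero
      intro X hX
      rw [hPw X hX, mem_singleton]
      exact hvw
    rw [← hGsplit, ← hGwsplit, cnt_add, cnt_add, cnt_add, h1, h2]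
    omega
  have hcap0 : ∀ v, cnt (Z + Xw) v + (if v ∈ N w then 1 else 0) ≤ gS out S v := by
    intro v
    by_cases hvw : v = w
    · subst hvw
      rw [hc0w, if_neg hwN]
      exact Nat.zero_le _
    · rw [hc0 v hvw]
      have h1 := gS_insert N out hrel S hwS hNw hvw
      have h2 := hcap v
      omega
  -- comparison of `Psi G` and `Psi F0`
  have hDer : ∀ X, w ∉ X → D X Gp = D X Xw := by
    intro X hX
    rw [hXw]
    unfold D
    rw [Multiset.map_map]
    congr 1
    apply Multiset.map_congr rfl
    intro Y _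
    rw [Function.comp_apply, her]
    unfold dl
    have : Disjoint X Y ↔ Disjoint X (Y.erase w) := by
      constructor
      · intro h
        exact disjoint_of_subset_right (erase_subset w Y) h
      · intro h
        rw [Finset.disjoint_left] at h ⊢
        intro v h1 h2
        exact h h1 (mem_erase.2 ⟨fun h' => hX (h' ▸ h1), h2⟩)
    simp only [this]
  have hJ1 : J Z Gw = J Z Xw := by
    have h1 : J Z P = 0 := by
      apply J_eq_zero
      intro X hX Y hY
      rw [hPw Y hY, disjoint_singleton_right]
      exact hZw X hX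
    have h2 : J Z Gp = J Z Xw := by
      unfold J
      congr 1
      apply Multiset.map_congr rfl
      intro X hX
      exact hDer X (hZw X hX)
    rw [← hGwsplit, J_add_right, h1, h2, zero_add]
  have hJ2 : J Gw Gw = (Gw.card : ℤ) * Gw.card := by
    apply J_eq_card
    intro X hX Y hY h
    exact Finset.disjoint_left.1 h (hGww X hX) (hGww Y hY)
  have hJ3 : J Xw Xw = (Gp.card : ℤ) * Gp.card := by
    rw [← hXcard]
    apply J_eq_card
    intro X hX Y hY h
    rcases hchain X hX Y hY with h' | h'
    · have := disjoint_of_subset_right h' h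
      rw [disjoint_self] at this
      exact (hXne X hX).ne_empty this
    · have := disjoint_of_subset_left h' h
      rw [disjoint_self] at this
      exact (hXne Y hY).ne_empty this
  set t : Finset α → ℤ := fun X => ((N w \ cl N X).card : ℤ) with ht
  have hSqP : Sq N P = (P.card : ℤ) * (1 - (N w).card) := by
    unfold Sq
    have h1 : P.map (q N) = P.map (fun _ => (1 - ((N w).card : ℤ))) := by
      apply Multiset.map_congr rfl
      intro Y hY
      have h2 := hqY Y (Multiset.mem_of_le (Multiset.filter_le _ _) hY)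
      rw [h2, hPw Y hY]
      simp [q, cl]
    rw [h1]
    simp
  have hSqGp : Sq N Gp = Sq N Xw + (Xw.map (fun X => 1 - t X)).sum := by
    unfold Sq
    rw [hXw, Multiset.map_map, Multiset.map_map, ← Multiset.sum_map_add]
    congr 1
    apply Multiset.map_congr rfl
    intro Y hY
    have h2 := hqY Y (Multiset.mem_of_le (Multiset.filter_le _ _) hY)
    rw [h2]
    simp only [Function.comp_apply, her, ht]
    ring
  have hPsi : Psi N G ≤ Psi N (Z + Xw) + 2 * (Xw.map (fun X => 1 - t X)).sum := by
    have h1 : Psi N G = Psi N Gw + Psi N Z + 2 * J Gw Z := by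
      rw [← hGsplit, Psi_add]
    have h2 : Psi N (Z + Xw) = Psi N Z + Psi N Xw + 2 * J Z Xw := Psi_add _ _ _
    have h3 : Psi N Gw = 2 * (Sq N P + Sq N Gp) + (Gw.card : ℤ) * Gw.card - Gw.card := by
      unfold Psi
      rw [hJ2]
      congr 2
      rw [← hGwsplit, Sq_add]
    have h4 : Psi N Xw = 2 * Sq N Xw + (Gp.card : ℤ) * Gp.card - Gp.card := by
      unfold Psi
      rw [hJ3, hXcard]
    have h5 := arith_p (P.card : ℤ) Gw.card (N w).card (Int.natCast_nonneg _) hm
    rw [h1, h2, h3, h4, J_comm Gw Z, hJ1, hSqP, hSqGp]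
    have h6 : (Gp.card : ℤ) = Gw.card - P.card := by linarith
    rw [h6]
    nlinarith [h5]
  -- the sets with `t = 0`
  set T : Multiset (Finset α) := Xw.filter (fun X => N w ⊆ cl N X) with hT
  have hTle : T ≤ Xw := Multiset.filter_le _ _
  have hsumT : (Xw.map (fun X => 1 - t X)).sum ≤ (T.card : ℤ) := by
    have h1 : (Xw.map (fun X => 1 - t X)).sum ≤ (Xw.map (fun X => if N w ⊆ cl N X then (1 : ℤ) else 0)).sum := by
      apply Multiset.sum_map_le_sum_map
      intro X _
      by_cases h : N w ⊆ cl N X
      · rw [if_pos h, ht]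
        simp only
        have : (0 : ℤ) ≤ ((N w \ cl N X).card : ℤ) := Int.natCast_nonneg _
        linarith
      · rw [if_neg h, ht]
        simp only
        have h2 : 0 < (N w \ cl N X).card := by
          rw [card_pos, Finset.nonempty_iff_ne_empty]
          intro h3
          rw [sdiff_eq_empty_iff_subset] at h3
          exact h h3
        have : (1 : ℤ) ≤ ((N w \ cl N X).card : ℤ) := by exact_mod_cast h2
        linarith
    refine h1.trans (le_of_eq ?_)
    have h3 : ∀ F : Multiset (Finset α), (F.map (fun X => if N w ⊆ cl N X then (1 : ℤ) else 0)).sum =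
        ((F.filter (fun X => N w ⊆ cl N X)).card : ℤ) := by
      intro F
      induction F using Multiset.induction_on with
      | empty => simp
      | cons a F ih =>
        rw [Multiset.map_cons, Multiset.sum_cons, ih]
        by_cases h : N w ⊆ cl N a
        · rw [if_pos h, Multiset.filter_cons_of_pos (p := fun X => N w ⊆ cl N X) F h, Multiset.card_cons]
          push_cast
          ring
        · rw [if_neg h, zero_add, Multiset.filter_cons_of_neg (p := fun X => N w ⊆ cl N X) F h]
    rw [hT]
    exact h3 Xw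
  have hTcard : (T.card : ℤ) ≤ (N w).card := by
    have h1 : T.card ≤ Xw.card := Multiset.card_le_card hTle
    have h2 : Gp.card ≤ Gw.card := Multiset.card_le_card (Multiset.filter_le _ _)
    rw [hXcard] at h1
    have h3 : (T.card : ℤ) ≤ Gw.card := by exact_mod_cast h1.trans h2
    exact h3.trans hm
  by_cases hb : ∃ X ∈ T, Disjoint X (N w)
  · -- case b: merge
    obtain ⟨X, hX, hXd⟩ := hb
    have hXX : X ∈ Xw := Multiset.mem_of_le hTle hX
    have hXcl : N w ⊆ cl N X := (Multiset.mem_filter.1 hX).2
    have hX0 : X ∈ Z + Xw := Multiset.mem_add.2 (Or.inr hXX)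
    obtain ⟨R, hR⟩ := Multiset.exists_cons_of_mem hX0
    have hRle : R ≤ Z + Xw := by
      rw [hR]
      exact Multiset.le_cons_self _ _
    obtain ⟨F', hF1, hF2, hF3, -, -, hF6⟩ := insertion N _ R rfl (Lam_mono hRle hL0)
      (fun Y hY => hN0 Y (Multiset.mem_of_le hRle hY)) (X ∪ N w) (hV.mono subset_union_right)
    refine ⟨F', ⟨hF1, hF2, fun v => ?_⟩, ?_⟩
    · rw [hF3]
      have h1 := hcap0 v
      rw [hR, cnt_cons] at h1
      have h2 : (if v ∈ X ∪ N w then 1 else 0) = (if v ∈ X then 1 else 0) + (if v ∈ N w then 1 else 0) := by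
        by_cases h3 : v ∈ X
        · have h4 : v ∉ N w := Finset.disjoint_left.1 hXd h3
          simp [h3, h4]
        · simp [h3]
      rw [h2]
      omega
    · have h1 := q_union_disj N hXd
      have h2 : (N w).card ≤ (cl N X ∩ cl N (N w)).card :=
        card_le_card (subset_inter hXcl (subset_cl N _))
      have h3 : Psi N (Z + Xw) = Psi N R + 2 * q N X + 2 * D X R := by
        rw [hR, Psi_cons N (hXne X hXX)]
      have h4 : D X R ≤ D (X ∪ N w) R := D_mono subset_union_left R
      have h5 : ((N w).card : ℤ) ≤ ((cl N X ∩ cl N (N w)).card : ℤ) := by exact_mod_cast h2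
      linarith
  · -- case a: insert `N w`
    push_neg at hb
    obtain ⟨F', hF1, hF2, hF3, -, -, hF6⟩ := insertion N _ (Z + Xw) rfl hL0 hN0 (N w) hV
    refine ⟨F', ⟨hF1, hF2, fun v => ?_⟩, ?_⟩
    · rw [hF3]
      exact hcap0 v
    · have h1 : (T.card : ℤ) ≤ D (N w) (Z + Xw) := by
        rw [← D_eq_card (V := N w) (F := T) (fun X hX h => hb X hX h.symm)]
        exact D_le_of_le _ (hTle.trans (Multiset.le_add_left _ _))
      linarith

end Pool.Agent.Lib.H68E
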